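import Mathlib
import Pool.Agent.Results.MP_8a2df8_gt.DenseSigmaCompactFactor

/-!
# Sums of a Grothendieck space and a space with a dense `σ`-compact subspace

Together with a given point, a dense subset of the sum `X ⊕ Y` is covered by a continuous image of
`(X × K) × ℕ` for a compact space `K`.
-/

set_option autoImplicit false

open Set Filter Topology

namespace Pool.Agent.Results.MP_ab53ee_gt.DenseSigmaCompactSummand

open Pool.Agent.Results.MP_8a2df8_gt.DenseSigmaCompactFactor
  (Cp CountablyCompactIn GSpace Grothendieck HasDenseSigmaCompact grothendieck_of_maps)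

universe u v

theorem sigma_dense {Y : ℕ → Type v} [∀ n, TopologicalSpace (Y n)]
    (h : ∀ n, HasDenseSigmaCompact (Y n)) : HasDenseSigmaCompact (Σ n, Y n) := by
  choose D hDs hD using h
  choose K hK hKD using hDs
  refine ⟨⋃ p : ℕ × ℕ, Sigma.mk p.1 '' K p.1 p.2, ?_, ?_⟩
  · exact isSigmaCompact_iUnion_of_isCompact _ fun p =>
      (hK p.1 p.2).image continuous_sigmaMk
  · rintro ⟨n, y⟩
    have h1 : (⟨n, y⟩ : Σ n, Y n) ∈ closure (Sigma.mk n '' D n) :=
      image_closure_subset_closure_image continuous_sigmaMk (mem_image_of_mem _ (hD n y))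
    refine closure_mono ?_ h1
    rintro _ ⟨z, hz, rfl⟩
    rw [← hKD n] at hz
    obtain ⟨m, hm⟩ := mem_iUnion.1 hz
    exact mem_iUnion.2 ⟨(n, m), mem_image_of_mem _ hm⟩

open Pool.Agent.Y20.GC in
/-- the map `(X × ∏ (K n ∪ {y})) × ℕ → X ⊕ Y` -/
def fold (X : Type u) {Y : Type v} (K : ℕ → Set Y) (y : Y) : (X × PK K y) × ℕ → X ⊕ Y :=
  fun p => match p.2 with
    | 0 => Sum.inl p.1.1
    | n + 1 => Sum.inr (p.1.2 n).1

theorem fold_continuous (X : Type u) {Y : Type v} [TopologicalSpace X] [TopologicalSpace Y]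
    (K : ℕ → Set Y) (y : Y) : Continuous (fold X K y) := by
  rw [continuous_prod_of_discrete_right]
  intro n
  cases n with
  | zero => exact continuous_inl.comp continuous_fst
  | succ n =>
    exact continuous_inr.comp (continuous_subtype_val.comp ((continuous_apply n).comp continuous_snd))

theorem grothendieck_sum {X : Type u} [TopologicalSpace X] [T35Space X] [Nonempty X]
    (hX : Grothendieck X) {Y : Type v} [TopologicalSpace Y] [T2Space Y]
    (hY : HasDenseSigmaCompact Y) : Grothendieck (X ⊕ Y) := by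
  obtain ⟨D, ⟨K, hK, hKD⟩, hD⟩ := hY
  have x₀ : X := Classical.arbitrary X
  have hd : Dense (range (Sum.inl : X → X ⊕ Y) ∪ Sum.inr '' D) := by
    rintro (x | y)
    · exact subset_closure (Or.inl (mem_range_self x))
    · exact closure_mono subset_union_right
        (image_closure_subset_closure_image continuous_inr (mem_image_of_mem _ (hD y)))
  have key : ∀ y : Y, Grothendieck ((X × Pool.Agent.Y20.GC.PK K y) × ℕ) ∧
      range (Sum.inl : X → X ⊕ Y) ∪ Sum.inr '' D ⊆ range (fold X K y) ∧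
      Sum.inr y ∈ range (fold X K y) := by
    intro y
    have hc := Pool.Agent.Y20.GC.compact_PK hK y
    let k₀ : Pool.Agent.Y20.GC.PK K y := fun n => ⟨y, Or.inl rfl⟩
    refine ⟨MP_0f8365_gt.CountableFactor.result _ ℕ
      (MP_8a2df8_gt.ProductCompact.result X hX (Pool.Agent.Y20.GC.PK K y)) inferInstance, ?_,
      ⟨((x₀, k₀), 1), rfl⟩⟩
    rintro _ (⟨x, rfl⟩ | ⟨z, hz, rfl⟩)
    · exact ⟨((x, k₀), 0), rfl⟩
    · rw [← hKD] at hz
      obtain ⟨⟨⟨x, k⟩, n⟩, hp⟩ := (Pool.Agent.Y20.GC.range_pmap (X := X) K y).1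
        (show (x₀, z) ∈ (univ : Set X) ×ˢ ⋃ n, K n from ⟨mem_univ _, hz⟩)
      have hp2 : (k n).1 = z := congrArg Prod.snd hp
      exact ⟨((x₀, k), n + 1), congrArg Sum.inr hp2⟩
  rcases isEmpty_or_nonempty Y with hY | ⟨⟨y₀⟩⟩
  · refine grothendieck_of_maps (D := univ) dense_univ fun w =>
      ⟨X, inferInstance, Sum.inl, hX, continuous_inl, fun w _ => ?_, ?_⟩
    · rcases w with x | y
      · exact ⟨x, rfl⟩
      · exact (hY.false y).elim
    · rcases w with x | y
      · exact ⟨x, rfl⟩
      · exact (hY.false y).elim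
  · refine grothendieck_of_maps hd ?_
    rintro (x | y)
    · exact ⟨_, inferInstance, fold X K y₀, (key y₀).1, fold_continuous X K y₀, (key y₀).2.1,
        (key y₀).2.1 (Or.inl ⟨x, rfl⟩)⟩
    · exact ⟨_, inferInstance, fold X K y, (key y).1, fold_continuous X K y, (key y).2.1,
        (key y).2.2⟩

/-- **Theorem.** Let `X` be a nonempty Grothendieck space. (1) If `Y` has a dense `σ`-compact subspace
(for example, `Y` compact, `σ`-compact, countable or separable), then `X ⊕ Y` is Grothendieck.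
(2) If `Y 0, Y 1, …` are such spaces, then `X ⊕ (Y 0 ⊕ Y 1 ⊕ …)` is Grothendieck. -/
theorem result (X : Type u) [TopologicalSpace X] [T35Space X] [Nonempty X] (hX : Grothendieck X) :
    (∀ (Y : Type v) [TopologicalSpace Y] [T35Space Y], HasDenseSigmaCompact Y →
      Grothendieck (X ⊕ Y)) ∧
    (∀ (Y : ℕ → Type v) [∀ n, TopologicalSpace (Y n)] [∀ n, T35Space (Y n)],
      (∀ n, HasDenseSigmaCompact (Y n)) → Grothendieck (X ⊕ (Σ n, Y n))) :=
  ⟨fun _ _ _ hY => grothendieck_sum hX hY, fun _ _ _ hY => grothendieck_sum hX (sigma_dense hY)⟩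

end Pool.Agent.Results.MP_ab53ee_gt.DenseSigmaCompactSummand
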