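import Mathlib
import Pool.Agent.Helper292.ForceCH
import Pool.Agent.Helper901.GrothFinal

/-!
# MP_ab53ee_gt: sums of two Lindelof Grothendieck spaces, under the continuum hypothesis

A stronger form of the counterexample: both spaces are Lindelof, first countable, zero-dimensional,
have only countably many non-isolated points and a coarser separable metrizable topology.
-/

set_option autoImplicit false

open Cardinal Set Filter Topology
open Pool.Agent.Helper292.ForceCH (OmegaOnePreserved CHHolds)
open Pool.Agent.Helper901.GrothComb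
open Pool.Agent.Helper901.Groth

namespace Pool.Agent.Results.MP_ab53ee_gt.LindelofSumFails

variable {A : Set (Set ℕ)}

theorem lindelof (hg : ∀ g : ℕ → ℕ, {x | x ∈ A ∧ ¬ Gap g x}.Countable) : LindelofSpace (Sp A) := by
  refine ⟨isLindelof_of_countable_subcover fun {ι} U hU ht => ?_⟩
  have hs : ∀ y : Sp A, ∃ i, y ∈ U i := fun y => mem_iUnion.1 (ht (mem_univ y))
  choose c hc using hs
  have h1 : ∀ s : Finset ℕ, ∃ k, ∀ x, Agr k s (cc x) → x ∈ U (c (fin A s)) :=
    fun s => hU (c (fin A s)) s (hc _)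
  choose κ hκ using h1
  let g : ℕ → ℕ := fun n => (Finset.range n).powerset.sup κ
  let R : Set A := {i | ¬ Gap g i.1}
  have hR : R.Countable := by
    have h2 := (hg g).preimage (f := fun i : A => i.1) Subtype.val_injective
    refine h2.mono fun i hi => ?_
    show i.1 ∈ A ∧ ¬ Gap g i.1
    exact And.intro i.2 hi
  refine ⟨range (fun s : Finset ℕ => c (fin A s)) ∪ (fun i => c (mem A i)) '' R,
    (countable_range _).union (hR.image _), fun y _ => ?_⟩
  simp only [mem_iUnion]
  rcases sp_cases y with ⟨s, rfl⟩ | ⟨i, rfl⟩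
  · exact ⟨c (fin A s), Or.inl ⟨s, rfl⟩, hc _⟩
  · by_cases hG : Gap g i.1
    · obtain ⟨n, hn⟩ := hG
      let p : Finset ℕ := tr n i.1
      have hpn : p ∈ (Finset.range n).powerset := by
        rw [Finset.mem_powerset]
        intro a ha
        exact Finset.mem_range.2 (mem_tr.1 ha).1
      have hκg : κ p ≤ g n := Finset.le_sup (f := κ) hpn
      refine ⟨c (fin A p), Or.inl ⟨p, rfl⟩, hκ p _ ?_⟩
      intro a ha
      rw [cc_mem, mem_tr]
      refine ⟨fun hax => ⟨?_, hax⟩, fun h => h.2⟩
      by_contra hna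
      have := hn a hax (by omega)
      omega
    · exact ⟨c (mem A i), Or.inr ⟨i, hG, rfl⟩, hc _⟩

theorem basis (hA : ∀ x ∈ A, x.Infinite) :
    TopologicalSpace.IsTopologicalBasis {s : Set (Sp A) | IsClopen s} := by
  refine TopologicalSpace.isTopologicalBasis_of_isOpen_of_nhds (fun u hu => hu.isOpen) ?_
  intro x U hx hU
  rcases sp_cases x with ⟨s, rfl⟩ | ⟨i, rfl⟩
  · obtain ⟨k, hk⟩ := hU s hx
    exact ⟨_, ⟨isClosed_agree k s, isOpen_agree k s⟩, agree_self k s, hk⟩
  · exact ⟨{mem A i}, ⟨isClosed_mem hA i, isOpen_mem i⟩, rfl, singleton_subset_iff.2 hx⟩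

theorem nonisolated : {x : Sp A | ¬ IsOpen ({x} : Set (Sp A))}.Countable := by
  refine (countable_range (fin A)).mono fun x hx => ?_
  rcases sp_cases x with ⟨s, rfl⟩ | ⟨i, rfl⟩
  · exact ⟨s, rfl⟩
  · exact absurd (isOpen_mem i) hx

open Classical in
theorem injection (hA : ∀ x ∈ A, x.Infinite) :
    ∃ f : Sp A → (ℕ → Bool), Continuous f ∧ Function.Injective f := by
  refine ⟨fun x n => decide (n ∈ cc x), ?_, ?_⟩
  · refine continuous_pi fun n => ?_
    rw [continuous_discrete_rng]
    intro b s hs
    refine ⟨n + 1, fun x hx => ?_⟩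
    have h1 := hx n (by omega)
    have hs' : decide (n ∈ cc (fin A s)) = b := hs
    show decide (n ∈ cc x) = b
    rw [← hs', cc_fin]
    exact decide_eq_decide.2 (h1.trans Iff.rfl)
  · intro x y hxy
    have h : cc x = cc y := by
      ext n
      exact decide_eq_decide.1 (congrFun hxy n)
    rcases sp_cases x with ⟨s, rfl⟩ | ⟨i, rfl⟩ <;> rcases sp_cases y with ⟨t, rfl⟩ | ⟨j, rfl⟩
    · rw [cc_fin, cc_fin, Finset.coe_inj] at h
      rw [h]
    · rw [cc_fin, cc_mem] at h
      exact absurd (h ▸ s.finite_toSet) (hA j.1 j.2)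
    · rw [cc_fin, cc_mem] at h
      exact absurd (h ▸ t.finite_toSet) (hA i.1 i.2)
    · rw [cc_mem, cc_mem] at h
      rw [Subtype.ext h]

/-- Some forcing notion forces the continuum hypothesis (and preserves `ω₁`) over any ground model;
and the continuum hypothesis gives two Grothendieck spaces whose sum is not Grothendieck, both
Tychonoff, Lindelöf, first countable, with a base of clopen sets, with only countably many
non-isolated points and with a continuous injection into the Cantor set. -/
theorem result :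
    (∃ (P : Type) (_ : Preorder P), Nonempty P ∧
      ∀ p : P, p ∈ OmegaOnePreserved P ∧ p ∈ CHHolds P) ∧
    ((ℵ₁ : Cardinal.{0}) = 𝔠 →
      ∃ (X Y : Type) (_ : TopologicalSpace X) (_ : TopologicalSpace Y),
        (T35Space X ∧ LindelofSpace X ∧ FirstCountableTopology X ∧
          TopologicalSpace.IsTopologicalBasis {s : Set X | IsClopen s} ∧
          {x : X | ¬ IsOpen ({x} : Set X)}.Countable ∧
          ∃ f : X → (ℕ → Bool), Continuous f ∧ Function.Injective f) ∧
        (T35Space Y ∧ LindelofSpace Y ∧ FirstCountableTopology Y ∧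
          TopologicalSpace.IsTopologicalBasis {s : Set Y | IsClopen s} ∧
          {y : Y | ¬ IsOpen ({y} : Set Y)}.Countable ∧
          ∃ f : Y → (ℕ → Bool), Continuous f ∧ Function.Injective f) ∧
        Grothendieck X ∧ Grothendieck Y ∧ ¬ Grothendieck (X ⊕ Y)) := by
  refine ⟨?_, fun hCH => ?_⟩
  · obtain ⟨P, hP, hne, h⟩ := Pool.Agent.Helper292.ForceCH.exists_forcing
    exact ⟨P, hP, hne, fun p => ⟨(h p).1, (h p).2.2⟩⟩
  · obtain ⟨A₀, A₁, h⟩ := exists_fam hCH
    exact ⟨Sp A₀, Sp A₁, inferInstance, inferInstance,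
      ⟨t35 h.inf₀, lindelof h.gap₀, firstCountable, basis h.inf₀, nonisolated, injection h.inf₀⟩,
      ⟨t35 h.inf₁, lindelof h.gap₁, firstCountable, basis h.inf₁, nonisolated, injection h.inf₁⟩,
      grothendieck_sp h.gap₀ h.seq₀, grothendieck_sp h.gap₁ h.seq₁, h.not_grothendieck⟩

end Pool.Agent.Results.MP_ab53ee_gt.LindelofSumFails
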